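import Mathlib
import Pool.Agent.H590.PL.Stm

/-!
# The `p`-th power of the length of the sublevel set is concave
-/

set_option autoImplicit false

noncomputable section

open MeasureTheory Filter Topology Set
open scoped BigOperators ENNReal

namespace Pool.Agent.H335.PLK2

open H590PL

/-! ### The kernel -/

/-- the kernel `u |u|^(p-2)` -/
def kr (p u : ℝ) : ℝ := u * |u| ^ (p - 2)

lemma kr_neg (p u : ℝ) : kr p (-u) = -kr p u := by
  simp [kr, abs_neg]

lemma kr_of_nonneg {p u : ℝ} (hp : 1 < p) (hu : 0 ≤ u) : kr p u = u ^ (p - 1) := by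
  rcases hu.eq_or_lt with h | h
  · rw [← h, kr, zero_mul, Real.zero_rpow (by linarith)]
  · rw [kr, abs_of_pos h]
    nth_rewrite 1 [← Real.rpow_one u]
    rw [← Real.rpow_add h]
    congr 1
    ring

lemma kr_strictMono {p : ℝ} (hp : 1 < p) : StrictMono (kr p) := by
  refine strictMono_of_odd_strictMonoOn_nonneg (kr_neg p) ?_
  intro u hu v hv huv
  rw [kr_of_nonneg hp hu, kr_of_nonneg hp hv]
  exact Real.rpow_lt_rpow hu huv (by linarith)

lemma kr_continuous {p : ℝ} (hp : 1 < p) : Continuous (kr p) := by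
  have h1 : ContDiff ℝ 1 (fun x : ℝ => ‖x‖ ^ p) := contDiff_norm_rpow hp
  have h2 := h1.continuous_deriv le_rfl
  have h3 : deriv (fun x : ℝ => ‖x‖ ^ p) = fun x => p * kr p x := by
    funext x
    have h4 := (hasDerivAt_abs_rpow x hp).deriv
    simp only [Real.norm_eq_abs]
    rw [h4, kr]
    ring
  rw [h3] at h2
  have h5 : kr p = fun x => p⁻¹ * (p * kr p x) := by
    funext x
    rw [← mul_assoc, inv_mul_cancel₀ (by linarith), one_mul]
  rw [h5]
  exact continuous_const.mul h2

lemma kr_hasDerivAt {p u : ℝ} (hp : 1 < p) (hu : u ≠ 0) :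
    HasDerivAt (kr p) ((p - 1) * |u| ^ (p - 2)) u := by
  rcases lt_or_gt_of_ne hu with h | h
  · have h1 : HasDerivAt (fun x : ℝ => -(-x) ^ (p - 1)) ((p - 1) * |u| ^ (p - 2)) u := by
      have h2 : HasDerivAt (fun x : ℝ => (-x) ^ (p - 1)) (-1 * (p - 1) * (-u) ^ (p - 1 - 1)) u :=
        (hasDerivAt_neg u).rpow_const (Or.inl (by linarith))
      have h3 := h2.fun_neg
      have h4 : -(-1 * (p - 1) * (-u) ^ (p - 1 - 1)) = (p - 1) * |u| ^ (p - 2) := by
        rw [abs_of_neg h, show p - 1 - 1 = p - 2 by ring]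
        ring
      rwa [h4] at h3
    refine h1.congr_of_eventuallyEq ?_
    filter_upwards [Iio_mem_nhds h] with x hx
    have h4 : kr p (-x) = (-x) ^ (p - 1) := kr_of_nonneg hp (by
      have : x < 0 := hx
      linarith)
    rw [← h4, kr_neg, neg_neg]
  · have h2 : HasDerivAt (fun x : ℝ => x ^ (p - 1)) (1 * (p - 1) * u ^ (p - 1 - 1)) u :=
      (hasDerivAt_id u).rpow_const (Or.inl hu)
    have h3 : (1 * (p - 1) * u ^ (p - 1 - 1)) = (p - 1) * |u| ^ (p - 2) := by
      rw [abs_of_pos h, show p - 1 - 1 = p - 2 by ring, one_mul]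
    rw [h3] at h2
    refine h2.congr_of_eventuallyEq ?_
    filter_upwards [Ioi_mem_nhds h] with x hx
    exact kr_of_nonneg hp (le_of_lt hx)

/-! ### The function `φ` -/

section

variable {κ : Type} [Fintype κ]

/-- the derivative of `φ` -/
def dph (p : ℝ) (A B : κ → ℝ) (s : ℝ) : ℝ := ∑ i, p * (A i * kr p (A i * s + B i))

/-- the second derivative of `φ` -/
def ddph (p : ℝ) (A B : κ → ℝ) (s : ℝ) : ℝ :=
  ∑ i, p * ((p - 1) * (A i ^ 2 * |A i * s + B i| ^ (p - 2)))

lemma lin_hasDerivAt (a b s : ℝ) : HasDerivAt (fun x : ℝ => a * x + b) a s := by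
  simpa using ((hasDerivAt_id s).const_mul a).add_const b

lemma ph_hasDerivAt {p : ℝ} (hp : 1 < p) (A B : κ → ℝ) (s : ℝ) :
    HasDerivAt (ph p A B) (dph p A B s) s := by
  have h1 : ∀ i ∈ (Finset.univ : Finset κ), HasDerivAt (fun x : ℝ => |A i * x + B i| ^ p)
      (p * (A i * kr p (A i * s + B i))) s := by
    intro i _
    have h2 := (hasDerivAt_abs_rpow (A i * s + B i) hp).comp s (lin_hasDerivAt (A i) (B i) s)
    have h3 : p * |A i * s + B i| ^ (p - 2) * (A i * s + B i) * A i =
        p * (A i * kr p (A i * s + B i)) := by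
      rw [kr]
      ring
    rw [h3] at h2
    exact h2
  exact HasDerivAt.fun_sum h1

lemma ph_continuous {p : ℝ} (hp : 1 < p) (A B : κ → ℝ) : Continuous (ph p A B) :=
  continuous_iff_continuousAt.2 fun s => (ph_hasDerivAt hp A B s).continuousAt

lemma dph_continuous {p : ℝ} (hp : 1 < p) (A B : κ → ℝ) : Continuous (dph p A B) := by
  refine continuous_finsetSum _ fun i _ => ?_
  refine continuous_const.mul (continuous_const.mul ((kr_continuous hp).comp ?_))
  exact (continuous_const.mul continuous_id).add continuous_const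

lemma dph_strictMono {p : ℝ} (hp : 1 < p) {A B : κ → ℝ} (hA : ∃ i, A i ≠ 0) :
    StrictMono (dph p A B) := by
  have h1 : ∀ i, ∀ s t : ℝ, s < t → A i * kr p (A i * s + B i) ≤ A i * kr p (A i * t + B i) ∧
      (A i ≠ 0 → A i * kr p (A i * s + B i) < A i * kr p (A i * t + B i)) := by
    intro i s t hst
    rcases lt_trichotomy (A i) 0 with h | h | h
    · have h2 : A i * t + B i < A i * s + B i := by nlinarith
      have h3 := mul_lt_mul_of_neg_left (kr_strictMono hp h2) h
      exact ⟨h3.le, fun _ => h3⟩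
    · rw [h]
      simp
    · have h2 : A i * s + B i < A i * t + B i := by nlinarith
      have h3 := mul_lt_mul_of_pos_left (kr_strictMono hp h2) h
      exact ⟨h3.le, fun _ => h3⟩
  intro s t hst
  obtain ⟨i, hi⟩ := hA
  refine Finset.sum_lt_sum (fun j _ => ?_) ⟨i, Finset.mem_univ i, ?_⟩
  · exact mul_le_mul_of_nonneg_left (h1 j s t hst).1 (by linarith)
  · exact mul_lt_mul_of_pos_left ((h1 i s t hst).2 hi) (by linarith)

lemma dph_hasDerivAt {p : ℝ} (hp : 1 < p) {A B : κ → ℝ} {s : ℝ}
    (hs : ∀ i, A i ≠ 0 → A i * s + B i ≠ 0) : HasDerivAt (dph p A B) (ddph p A B s) s := by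
  refine HasDerivAt.fun_sum fun i _ => ?_
  by_cases h : A i = 0
  · rw [h]
    simpa using hasDerivAt_const s (0 : ℝ)
  · have h2 := (kr_hasDerivAt hp (hs i h)).comp s (lin_hasDerivAt (A i) (B i) s)
    have h3 := (h2.const_mul (A i)).const_mul p
    have h4 : p * (A i * ((p - 1) * |A i * s + B i| ^ (p - 2) * A i)) =
        p * ((p - 1) * (A i ^ 2 * |A i * s + B i| ^ (p - 2))) := by
      ring
    rw [h4] at h3
    exact h3

lemma ph_nonneg (p : ℝ) (A B : κ → ℝ) (s : ℝ) : 0 ≤ ph p A B s :=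
  Finset.sum_nonneg fun _ _ => Real.rpow_nonneg (abs_nonneg _) _

lemma le_ph (p : ℝ) (A B : κ → ℝ) (i : κ) (s : ℝ) : |A i * s + B i| ^ p ≤ ph p A B s :=
  Finset.single_le_sum (f := fun i => |A i * s + B i| ^ p)
    (fun _ _ => Real.rpow_nonneg (abs_nonneg _) _) (Finset.mem_univ i)

lemma ph_neg (p : ℝ) (A B : κ → ℝ) (s : ℝ) : ph p (fun i => -A i) B s = ph p A B (-s) := by
  simp [ph]

lemma dph_neg (p : ℝ) (A B : κ → ℝ) (s : ℝ) : dph p (fun i => -A i) B s = -dph p A B (-s) := by
  rw [dph, dph, ← Finset.sum_neg_distrib]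
  refine Finset.sum_congr rfl fun i _ => ?_
  rw [show -A i * s + B i = A i * -s + B i by ring]
  ring

lemma ddph_neg (p : ℝ) (A B : κ → ℝ) (s : ℝ) : ddph p (fun i => -A i) B s = ddph p A B (-s) := by
  rw [ddph, ddph]
  refine Finset.sum_congr rfl fun i _ => ?_
  rw [show -A i * s + B i = A i * -s + B i by ring, neg_sq]

lemma ph_tendsto {p : ℝ} (hp : 1 < p) {A B : κ → ℝ} (hA : ∃ i, A i ≠ 0) :
    Tendsto (ph p A B) atTop atTop := by
  obtain ⟨i, hi⟩ := hA
  refine tendsto_atTop_mono (le_ph p A B i) ?_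
  refine (tendsto_rpow_atTop (by linarith)).comp ?_
  rcases lt_or_gt_of_ne hi with h | h
  · refine tendsto_abs_atBot_atTop.comp ?_
    exact tendsto_atBot_add_const_right _ _ (tendsto_id.const_mul_atTop_of_neg h)
  · refine tendsto_abs_atTop_atTop.comp ?_
    exact tendsto_atTop_add_const_right _ _ (tendsto_id.const_mul_atTop h)

lemma ph_tendsto' {p : ℝ} (hp : 1 < p) {A B : κ → ℝ} (hA : ∃ i, A i ≠ 0) :
    Tendsto (ph p A B) atBot atTop := by
  have h1 : Tendsto (ph p (fun i => -A i) B) atTop atTop :=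
    ph_tendsto hp (by
      obtain ⟨i, hi⟩ := hA
      exact ⟨i, neg_ne_zero.2 hi⟩)
  have h2 := h1.comp tendsto_neg_atBot_atTop
  refine h2.congr fun s => ?_
  rw [Function.comp_apply, ph_neg, neg_neg]

/-- the minimum -/
lemma exists_min {p : ℝ} (hp : 1 < p) {A B : κ → ℝ} (hA : ∃ i, A i ≠ 0) :
    ∃ s₀, (∀ s, ph p A B s₀ ≤ ph p A B s) ∧ dph p A B s₀ = 0 ∧ lmin p A B = ph p A B s₀ := by
  have h1 : Tendsto (ph p A B) (cocompact ℝ) atTop := by
    rw [cocompact_eq_atBot_atTop, tendsto_sup]
    exact ⟨ph_tendsto' hp hA, ph_tendsto hp hA⟩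
  obtain ⟨s₀, hs⟩ := (ph_continuous hp A B).exists_forall_le h1
  refine ⟨s₀, hs, ?_, ?_⟩
  · exact IsLocalMin.hasDerivAt_eq_zero (Filter.Eventually.of_forall hs) (ph_hasDerivAt hp A B s₀)
  · exact IsLeast.csInf_eq ⟨⟨s₀, rfl⟩, by
      rintro _ ⟨s, rfl⟩
      exact hs s⟩

/-! ### The branches of the inverse function -/

lemma branch {p : ℝ} (hp : 1 < p) {A B : κ → ℝ} (hA : ∃ i, A i ≠ 0) {s₀ : ℝ}
    (h0 : dph p A B s₀ = 0) : ∃ b : ℝ → ℝ, Continuous b ∧ b (ph p A B s₀) = s₀ ∧
      (∀ l, ph p A B s₀ < l → s₀ < b l ∧ ph p A B (b l) = l ∧ 0 < dph p A B (b l) ∧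
        HasDerivAt b (dph p A B (b l))⁻¹ l) ∧
      ∀ s l, s₀ ≤ s → (ph p A B s ≤ l ↔ s ≤ b l) := by
  have hpos : ∀ s, s₀ < s → 0 < dph p A B s := by
    intro s hs
    have := dph_strictMono hp hA hs (B := B)
    rwa [h0] at this
  have hmono : StrictMonoOn (ph p A B) (Ici s₀) := by
    refine strictMonoOn_of_deriv_pos (convex_Ici s₀) (ph_continuous hp A B).continuousOn ?_
    intro s hs
    rw [interior_Ici] at hs
    rw [(ph_hasDerivAt hp A B s).deriv]
    exact hpos s hs
  obtain ⟨g, hg⟩ : ∃ g : ℝ → ℝ, g = fun s => ph p A B (max s s₀) + min (s - s₀) 0 := ⟨_, rfl⟩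
  have hg1 : ∀ s, s₀ ≤ s → g s = ph p A B s := by
    intro s hs
    rw [hg]
    simp only
    rw [max_eq_left hs, min_eq_right (by linarith), add_zero]
  have hg2 : ∀ s, s ≤ s₀ → g s = ph p A B s₀ + (s - s₀) := by
    intro s hs
    rw [hg]
    simp only
    rw [max_eq_right hs, min_eq_left (by linarith)]
  have hgm : StrictMono g := by
    intro s t hst
    rcases le_total t s₀ with h | h
    · rw [hg2 t h, hg2 s (by linarith)]
      linarith
    · rw [hg1 t h]
      rcases lt_or_ge s s₀ with h' | h'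
      · rw [hg2 s h'.le]
        have := hmono.monotoneOn (mem_Ici.2 le_rfl) (mem_Ici.2 h) h
        linarith
      · rw [hg1 s h']
        exact hmono h' h hst
  have hgc : Continuous g := by
    rw [hg]
    exact ((ph_continuous hp A B).comp (continuous_id.max continuous_const)).add
      ((continuous_id.sub continuous_const).min continuous_const)
  have hgs : Function.Surjective g := by
    refine hgc.surjective ?_ ?_
    · refine (ph_tendsto hp hA (B := B)).congr' ?_
      filter_upwards [eventually_ge_atTop s₀] with s hs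
      exact (hg1 s hs).symm
    · have h1 : Tendsto (fun s => ph p A B s₀ + (s - s₀)) atBot atBot := by
        refine tendsto_atBot_add_const_left _ _ ?_
        exact tendsto_atBot_add_const_right _ _ tendsto_id
      refine h1.congr' ?_
      filter_upwards [eventually_le_atBot s₀] with s hs
      exact (hg2 s hs).symm
  obtain ⟨e, he⟩ : ∃ e : ℝ ≃o ℝ, ∀ s, e s = g s :=
    ⟨StrictMono.orderIsoOfSurjective g hgm hgs, fun _ => rfl⟩
  have hge : ∀ l, g (e.symm l) = l := by
    intro l
    rw [← he, e.apply_symm_apply]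
  have hb0 : e.symm (ph p A B s₀) = s₀ := by
    rw [← hg1 s₀ le_rfl, ← he, e.symm_apply_apply]
  have hb1 : ∀ l, ph p A B s₀ < l → s₀ < e.symm l ∧ ph p A B (e.symm l) = l := by
    intro l hl
    have h1 : s₀ < e.symm l := by
      rw [← hgm.lt_iff_lt, hge, hg1 s₀ le_rfl]
      exact hl
    refine ⟨h1, ?_⟩
    rw [← hg1 _ h1.le, hge]
  refine ⟨e.symm, e.symm.continuous, hb0, ?_, ?_⟩
  · intro l hl
    obtain ⟨h1, h2⟩ := hb1 l hl
    refine ⟨h1, h2, hpos _ h1, ?_⟩
    refine HasDerivAt.of_local_left_inverse e.symm.continuous.continuousAt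
      (ph_hasDerivAt hp A B _) (hpos _ h1).ne' ?_
    filter_upwards [Ioi_mem_nhds hl] with y hy
    exact (hb1 y hy).2
  · intro s l hs
    have h1 := hgm.le_iff_le (a := s) (b := e.symm l)
    rw [hge, hg1 s hs] at h1
    exact h1

/-! ### The key inequality -/

lemma key (h : S_K1) {p : ℝ} (hp : 1 < p) (hp2 : p < 2) (A B : κ → ℝ) {a b ρ : ℝ} (hab : a < b)
    (h0 : 0 < ρ) (h1 : ρ < 1) (ha : ∀ i, A i ≠ 0 → A i * a + B i ≠ 0)
    (hb : ∀ i, A i ≠ 0 → A i * b + B i ≠ 0) :
    (p - 1) * (ρ * (1 - ρ) * (dph p A B b - dph p A B a)) ≤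
      (b - a) * (ρ ^ 3 * ddph p A B b + (1 - ρ) ^ 3 * ddph p A B a) := by
  have h2 : ∀ i, ρ * (1 - ρ) * (A i * kr p (A i * b + B i) - A i * kr p (A i * a + B i)) ≤
      (b - a) * (ρ ^ 3 * (A i ^ 2 * |A i * b + B i| ^ (p - 2)) +
        (1 - ρ) ^ 3 * (A i ^ 2 * |A i * a + B i| ^ (p - 2))) := by
    intro i
    rcases lt_trichotomy (A i) 0 with hi | hi | hi
    · have h3 : A i * b + B i < A i * a + B i := by nlinarith
      have h4 := h p (1 - ρ) (A i * b + B i) (A i * a + B i) hp hp2 (by linarith) (by linarith) h3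
        (hb i hi.ne) (ha i hi.ne)
      have h5 := mul_le_mul_of_nonneg_left h4 (neg_nonneg.2 hi.le)
      simp only [kr]
      refine le_trans (le_of_eq ?_) (le_trans h5 (le_of_eq ?_))
      · ring
      · ring
    · rw [hi]
      simp
    · have h3 : A i * a + B i < A i * b + B i := by nlinarith
      have h4 := h p ρ (A i * a + B i) (A i * b + B i) hp hp2 h0 h1 h3 (ha i hi.ne') (hb i hi.ne')
      have h5 := mul_le_mul_of_nonneg_left h4 hi.le
      simp only [kr]
      refine le_trans (le_of_eq ?_) (le_trans h5 (le_of_eq ?_))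
      · ring
      · ring
  have h3 : (p - 1) * (ρ * (1 - ρ) * (dph p A B b - dph p A B a)) =
      ∑ i, p * (p - 1) * (ρ * (1 - ρ) *
        (A i * kr p (A i * b + B i) - A i * kr p (A i * a + B i))) := by
    rw [dph, dph, ← Finset.sum_sub_distrib, Finset.mul_sum, Finset.mul_sum]
    refine Finset.sum_congr rfl fun i _ => ?_
    ring
  have h4 : (b - a) * (ρ ^ 3 * ddph p A B b + (1 - ρ) ^ 3 * ddph p A B a) =
      ∑ i, p * (p - 1) * ((b - a) * (ρ ^ 3 * (A i ^ 2 * |A i * b + B i| ^ (p - 2)) +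
        (1 - ρ) ^ 3 * (A i ^ 2 * |A i * a + B i| ^ (p - 2)))) := by
    rw [ddph, ddph, Finset.mul_sum, Finset.mul_sum, ← Finset.sum_add_distrib, Finset.mul_sum]
    refine Finset.sum_congr rfl fun i _ => ?_
    ring
  rw [h3, h4]
  refine Finset.sum_le_sum fun i _ => ?_
  exact mul_le_mul_of_nonneg_left (h2 i) (mul_nonneg (by linarith) (by linarith))

lemma key2 (h : S_K1) {p : ℝ} (hp : 1 < p) (hp2 : p < 2) (A B : κ → ℝ) {a b α β : ℝ}
    (hab : a < b) (hα : 0 < α) (hβ : 0 < β) (hαe : dph p A B a = -α) (hβe : dph p A B b = β)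
    (ha : ∀ i, A i ≠ 0 → A i * a + B i ≠ 0) (hb : ∀ i, A i ≠ 0 → A i * b + B i ≠ 0) :
    (p - 1) * (β⁻¹ + α⁻¹) ^ 2 ≤
      (b - a) * (ddph p A B b / β ^ 3 + ddph p A B a / α ^ 3) := by
  have hs : 0 < α + β := by linarith
  have h1 := key h hp hp2 A B hab (ρ := α / (α + β)) (div_pos hα hs)
    ((div_lt_one hs).2 (by linarith)) ha hb
  rw [hαe, hβe] at h1
  have h2 : 1 - α / (α + β) = β / (α + β) := by
    rw [eq_div_iff hs.ne', sub_mul, div_mul_cancel₀ _ hs.ne']
    ring
  rw [h2] at h1
  have h3 : 0 ≤ (α + β) ^ 3 / (α ^ 3 * β ^ 3) := by positivity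
  have h4 := mul_le_mul_of_nonneg_left h1 h3
  refine le_trans (le_of_eq ?_) (le_trans h4 (le_of_eq ?_))
  · field_simp
    ring
  · field_simp

end

/-! ### Functions with nonpositive derivative off a finite set -/

lemma antitone_off_aux {f f' : ℝ → ℝ} {l₀ : ℝ} (hc : ContinuousOn f (Ioi l₀)) (E : Finset ℝ) :
    ∀ u v, l₀ < u → u ≤ v →
      (∀ l ∈ Ioo u v, l ∉ E → HasDerivAt f (f' l) l ∧ f' l ≤ 0) → f v ≤ f u := by
  induction E using Finset.induction_on with
  | empty =>
    intro u v hu huv hd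
    have h1 : AntitoneOn f (Icc u v) := by
      refine antitoneOn_of_deriv_nonpos (convex_Icc u v)
        (hc.mono fun x hx => lt_of_lt_of_le hu hx.1) ?_ ?_
      · intro x hx
        rw [interior_Icc] at hx
        exact (hd x hx (Finset.notMem_empty x)).1.differentiableAt.differentiableWithinAt
      · intro x hx
        rw [interior_Icc] at hx
        rw [(hd x hx (Finset.notMem_empty x)).1.deriv]
        exact (hd x hx (Finset.notMem_empty x)).2
    exact h1 (left_mem_Icc.2 huv) (right_mem_Icc.2 huv) huv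
  | insert c E _ ih =>
    intro u v hu huv hd
    by_cases hcm : c ∈ Ioo u v
    · have h1 := ih u c hu hcm.1.le (by
        intro l hl hlE
        refine hd l ⟨hl.1, hl.2.trans hcm.2⟩ ?_
        rw [Finset.mem_insert, not_or]
        exact ⟨hl.2.ne, hlE⟩)
      have h2 := ih c v (hu.trans hcm.1) hcm.2.le (by
        intro l hl hlE
        refine hd l ⟨hcm.1.trans hl.1, hl.2⟩ ?_
        rw [Finset.mem_insert, not_or]
        exact ⟨hl.1.ne', hlE⟩)
      exact h2.trans h1
    · refine ih u v hu huv ?_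
      intro l hl hlE
      refine hd l hl ?_
      rw [Finset.mem_insert, not_or]
      refine ⟨?_, hlE⟩
      rintro rfl
      exact hcm hl

lemma antitone_off {f f' : ℝ → ℝ} {l₀ : ℝ} (hc : ContinuousOn f (Ioi l₀)) (E : Finset ℝ)
    (hd : ∀ l, l₀ < l → l ∉ E → HasDerivAt f (f' l) l ∧ f' l ≤ 0) : AntitoneOn f (Ioi l₀) := by
  intro u hu v _ huv
  exact antitone_off_aux hc E u v hu huv fun l hl hlE => hd l (lt_trans hu hl.1) hlE

/-! ### The theorem -/

lemma sub_ball {κ : Type} [Fintype κ] {p : ℝ} (hp : 1 < p) (A B : κ → ℝ) {i : κ} (hi : A i ≠ 0)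
    (l : ℝ) :
    {s : ℝ | ph p A B s ≤ l} ⊆ Metric.closedBall (-B i / A i) (l ^ (1 / p) / |A i|) := by
  intro s hs
  have h1 : |A i * s + B i| ^ p ≤ l := (le_ph p A B i s).trans hs
  have h2 : |A i * s + B i| ≤ l ^ (1 / p) := by
    have h3 := Real.rpow_le_rpow (Real.rpow_nonneg (abs_nonneg _) _) h1
      (z := 1 / p) (by positivity)
    rwa [← Real.rpow_mul (abs_nonneg _), mul_one_div_cancel (by linarith), Real.rpow_one] at h3
  rw [Metric.mem_closedBall, Real.dist_eq, le_div_iff₀ (abs_pos.2 hi), ← abs_mul]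
  have h3 : (s - -B i / A i) * A i = A i * s + B i := by
    field_simp
    ring
  rw [h3]
  exact h2

theorem K2 (h : S_K1) : S_K2 := by
  intro κ _ p hp hp2 A B hA
  obtain ⟨s₀, hmin, hd0, hl0⟩ := exists_min hp hA (B := B)
  have hA' : ∃ i, (fun i => -A i) i ≠ 0 := by
    obtain ⟨i, hi⟩ := hA
    exact ⟨i, neg_ne_zero.2 hi⟩
  have hd0' : dph p (fun i => -A i) B (-s₀) = 0 := by
    rw [dph_neg, neg_neg, hd0, neg_zero]
  obtain ⟨b, hbc, hb0, hb1, hb2⟩ := branch hp hA hd0
  obtain ⟨c, hcc, hc0, hc1, hc2⟩ := branch hp hA' hd0'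
  have hph : ph p (fun i => -A i) B (-s₀) = ph p A B s₀ := by rw [ph_neg, neg_neg]
  rw [hph] at hc0 hc1
  rw [hl0]
  obtain ⟨m, hm⟩ : ∃ m, m = ph p A B s₀ := ⟨_, rfl⟩
  rw [← hm] at hmin hb0 hb1 hc0 hc1 hph ⊢
  have hm0 : 0 ≤ m := by
    rw [hm]
    exact ph_nonneg p A B s₀
  have hbge : ∀ l, m ≤ l → s₀ ≤ b l := by
    intro l hl
    refine (hb2 s₀ l le_rfl).1 ?_
    rw [← hm]
    exact hl
  have hcge : ∀ l, m ≤ l → -s₀ ≤ c l := by
    intro l hl
    refine (hc2 (-s₀) l le_rfl).1 ?_
    rw [hph]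
    exact hl
  have hset : ∀ l, m ≤ l → {s : ℝ | ph p A B s ≤ l} = Icc (-c l) (b l) := by
    intro l hl
    ext s
    rw [mem_ofPred_eq, mem_Icc]
    rcases le_total s₀ s with hs | hs
    · rw [hb2 s l hs]
      have := hcge l hl
      exact ⟨fun h => ⟨by linarith, h⟩, fun h => h.2⟩
    · have h1 := hc2 (-s) l (by linarith)
      rw [ph_neg, neg_neg] at h1
      rw [h1]
      have := hbge l hl
      exact ⟨fun h => ⟨by linarith, by linarith⟩, fun h => by linarith [h.1]⟩
  have hW : ∀ l, m ≤ l → Wl p A B l = b l + c l := by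
    intro l hl
    have h1 := hbge l hl
    have h2 := hcge l hl
    rw [Wl, hset l hl, Real.volume_Icc, ENNReal.toReal_ofReal (by linarith)]
    ring
  have hempty : ∀ l, l < m → {s : ℝ | ph p A B s ≤ l} = ∅ := by
    intro l hl
    rw [eq_empty_iff_forall_notMem]
    intro s hs
    have h1 : ph p A B s ≤ l := hs
    exact absurd (hmin s) (by linarith)
  obtain ⟨i₀, hi₀⟩ := hA
  have hWpos : ∀ l, m < l → 0 < b l + c l := by
    intro l hl
    have h1 := (hb1 l hl).1
    have h2 := (hc1 l hl).1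
    linarith
  refine ⟨hm0, ?_, ?_, ?_, ?_, ?_⟩
  · -- concavity
    have hconc : ConcaveOn ℝ (Ici m) (fun l => (b l + c l) ^ p) := by
      have hder : ∀ l, m < l → HasDerivAt (fun l => (b l + c l) ^ p)
          (((dph p A B (b l))⁻¹ + (dph p (fun i => -A i) B (c l))⁻¹) * p *
            (b l + c l) ^ (p - 1)) l := by
        intro l hl
        exact ((hb1 l hl).2.2.2.add (hc1 l hl).2.2.2).rpow_const (Or.inr hp.le)
      refine AntitoneOn.concaveOn_of_deriv (convex_Ici m) ?_ ?_ ?_
      · refine Continuous.continuousOn ?_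
        exact (hbc.add hcc).rpow_const fun _ => Or.inr (by linarith)
      · rw [interior_Ici]
        intro l hl
        exact (hder l hl).differentiableAt.differentiableWithinAt
      · rw [interior_Ici]
        have hanti : AntitoneOn (fun l => ((dph p A B (b l))⁻¹ +
            (dph p (fun i => -A i) B (c l))⁻¹) * p * (b l + c l) ^ (p - 1)) (Ioi m) := by
          classical
          refine antitone_off (f' := fun l =>
            (-(ddph p A B (b l) * (dph p A B (b l))⁻¹) / dph p A B (b l) ^ 2 +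
              -(ddph p (fun i => -A i) B (c l) * (dph p (fun i => -A i) B (c l))⁻¹) /
                dph p (fun i => -A i) B (c l) ^ 2) * p * (b l + c l) ^ (p - 1) +
            ((dph p A B (b l))⁻¹ + (dph p (fun i => -A i) B (c l))⁻¹) * p *
              (((dph p A B (b l))⁻¹ + (dph p (fun i => -A i) B (c l))⁻¹) * (p - 1) *
                (b l + c l) ^ (p - 1 - 1))) ?_
            (Finset.univ.image fun i => ph p A B (-B i / A i)) ?_
          · refine ContinuousOn.mul (ContinuousOn.mul (ContinuousOn.add ?_ ?_)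
              continuousOn_const) ?_
            · exact ((dph_continuous hp A B).comp hbc).continuousOn.inv₀
                fun l hl => (hb1 l hl).2.2.1.ne'
            · exact ((dph_continuous hp (fun i => -A i) B).comp hcc).continuousOn.inv₀
                fun l hl => (hc1 l hl).2.2.1.ne'
            · exact ((hbc.add hcc).rpow_const fun _ => Or.inr (by linarith)).continuousOn
          · intro l hl hlE
            obtain ⟨hb1a, hb1b, hb1c, hb1d⟩ := hb1 l hl
            obtain ⟨hc1a, hc1b, hc1c, hc1d⟩ := hc1 l hl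
            have hWl := hWpos l hl
            have hnb : ∀ i, A i ≠ 0 → A i * b l + B i ≠ 0 := by
              intro i hi h0
              apply hlE
              rw [Finset.mem_image]
              refine ⟨i, Finset.mem_univ i, ?_⟩
              have h1 : -B i / A i = b l := by
                rw [div_eq_iff hi]
                linarith
              rw [h1, hb1b]
            have hna : ∀ i, A i ≠ 0 → A i * (-c l) + B i ≠ 0 := by
              intro i hi h0
              apply hlE
              rw [Finset.mem_image]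
              refine ⟨i, Finset.mem_univ i, ?_⟩
              have h1 : -B i / A i = -c l := by
                rw [div_eq_iff hi]
                linarith
              rw [h1, ← ph_neg, hc1b]
            have hnc : ∀ i, -A i ≠ 0 → -A i * c l + B i ≠ 0 := by
              intro i hi h0
              exact hna i (neg_ne_zero.1 hi) (by linarith)
            have hdb : HasDerivAt (fun l => dph p A B (b l))
                (ddph p A B (b l) * (dph p A B (b l))⁻¹) l :=
              (dph_hasDerivAt hp hnb).comp l hb1d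
            have hdc : HasDerivAt (fun l => dph p (fun i => -A i) B (c l))
                (ddph p (fun i => -A i) B (c l) * (dph p (fun i => -A i) B (c l))⁻¹) l :=
              (dph_hasDerivAt hp hnc).comp l hc1d
            refine ⟨?_, ?_⟩
            · exact (((hdb.fun_inv hb1c.ne').add (hdc.fun_inv hc1c.ne')).mul_const p).mul
                ((hb1d.add hc1d).rpow_const (Or.inl hWl.ne'))
            · have hk := key2 h hp hp2 A B (a := -c l) (b := b l)
                (α := dph p (fun i => -A i) B (c l)) (β := dph p A B (b l)) (by linarith) hc1c hb1c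
                (by rw [dph_neg, neg_neg]) rfl hna hnb
              rw [ddph_neg]
              obtain ⟨α, hα⟩ : ∃ α, α = dph p (fun i => -A i) B (c l) := ⟨_, rfl⟩
              obtain ⟨β, hβ⟩ : ∃ β, β = dph p A B (b l) := ⟨_, rfl⟩
              obtain ⟨x, hx⟩ : ∃ x, x = ddph p A B (b l) := ⟨_, rfl⟩
              obtain ⟨y, hy⟩ : ∃ y, y = ddph p A B (-c l) := ⟨_, rfl⟩
              rw [← hα, ← hβ, ← hx, ← hy] at hk
              rw [← hα] at hc1c
              rw [← hβ] at hb1c
              rw [← hα, ← hβ, ← hx, ← hy]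
              have hpw : (b l + c l) ^ (p - 1) = (b l + c l) * (b l + c l) ^ (p - 1 - 1) := by
                rw [Real.rpow_sub_one hWl.ne' (p - 1), mul_div_cancel₀ _ hWl.ne']
              rw [hpw, sub_neg_eq_add] at *
              have h1 : 0 ≤ p * (b l + c l) ^ (p - 1 - 1) :=
                mul_nonneg (by linarith) (Real.rpow_nonneg hWl.le _)
              have h2 := mul_le_mul_of_nonneg_left hk h1
              rw [← sub_nonpos] at h2
              refine le_trans (le_of_eq ?_) h2
              field_simp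
              ring
        intro u hu v hv huv
        rw [(hder u hu).deriv, (hder v hv).deriv]
        exact hanti hu hv huv
    refine hconc.congr ?_
    intro l hl
    simp only
    rw [hW l hl]
  · intro l hl
    rw [Wl, hempty l hl]
    simp
  · intro l
    rcases lt_or_ge l m with hl | hl
    · rw [hempty l hl]
      simp
    · rw [hset l hl, Real.volume_Icc]
      exact ENNReal.ofReal_ne_top
  · refine ⟨2 / |A i₀|, ?_⟩
    intro l hl
    have h1 : volume {s : ℝ | ph p A B s ≤ l} ≤ ENNReal.ofReal (2 * (l ^ (1 / p) / |A i₀|)) := by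
      rw [← Real.volume_closedBall (-B i₀ / A i₀)]
      exact measure_mono (sub_ball hp A B hi₀ l)
    have h2 := ENNReal.toReal_mono ENNReal.ofReal_ne_top h1
    rw [ENNReal.toReal_ofReal (by positivity)] at h2
    refine h2.trans (le_of_eq ?_)
    ring
  · intro l hl
    rw [hW l hl.le]
    exact hWpos l hl

end Pool.Agent.H335.PLK2
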